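import Pool.Agent.KR5.Full
import Pool.Agent.KR7.Main

/-!
# Kikuta-Ruckle for all total doses when `k` is close to `n`
-/

namespace Pool.Agent.Results.MP_779da1_co.NearFull

/-- If `12 (n - k) ≤ n`, or if `n - k` divides `n - 1` and `4 (n - k) < n`, or if `n - k` divides
`n`, then for every real `h > 1` (and doses of any sign) the `1`-distribution is optimal if
`h k < n` and the `1 / k`-distribution is optimal if `h k ≥ n`. -/
theorem result (n k : ℕ) (h : ℝ) (hk : 1 ≤ k) (hh : 1 < h)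
    (hn : 12 * (n - k) ≤ n ∨ (n - k ∣ n - 1 ∧ 4 * (n - k) < n) ∨ n - k ∣ n)
    (x : Fin n → ℝ) (hx : ∑ i, x i = h) :
    ∃ j : ℕ, 0 < j ∧ (h * k < n → j = 1) ∧ (n ≤ h * k → j = k) ∧
      Set.ncard {V : Finset (Fin n) | V.card = k ∧ (1 : ℝ) ≤ ∑ i ∈ V, x i} ≤
      Set.ncard {V : Finset (Fin n) | V.card = k ∧ (1 : ℝ) ≤ ∑ i ∈ V,
        (if i.val < min n ⌊h * (j : ℝ)⌋₊ then (1 : ℝ) / (j : ℝ) else 0)} :=
  Pool.Agent.KR5.full (by norm_num) Pool.Agent.KR7.key11 n k h hk hh hn x hx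

end Pool.Agent.Results.MP_779da1_co.NearFull
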