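import Pool.Agent.Helper46.K4.Final4

/-!
The Kikuta-Ruckle poison distribution problem for quadruples: for every number of elements and
every total dose at least 3000, the distribution `1 / 1` or the distribution `1 / 4` is optimal.
-/

set_option autoImplicit false

namespace Pool.Agent.Results.MP_779da1_co.Quadruples

open Finset

/-- For every `n` and every real `h ≥ 3000` there is `j` in `{1, 4}` such that the distribution
`1 / j` is optimal for `k = 4`. -/
theorem result (n : ℕ) (h : ℝ) (hh : 3000 ≤ h) :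
    ∃ j : ℕ, (j = 1 ∨ j = 4) ∧ ∀ x : Fin n → ℝ, (∀ i, 0 ≤ x i) → ∑ i, x i = h →
      Set.ncard {V : Finset (Fin n) | V.card = 4 ∧ (1 : ℝ) ≤ ∑ i ∈ V, x i} ≤
      Set.ncard {V : Finset (Fin n) | V.card = 4 ∧ (1 : ℝ) ≤ ∑ i ∈ V,
            (if i.val < min n ⌊h * (j : ℝ)⌋₊ then (1 : ℝ) / (j : ℝ) else 0)} :=
  K4.quad n h hh

end Pool.Agent.Results.MP_779da1_co.Quadruples
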