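import Pool.Agent.Helper80.AK.Conv
import Pool.Agent.KR4.Near
import Pool.Agent.KR5.Range
import Pool.Agent.KR7.Main

/-!
# All `k`: the range of the `1 / k`-distribution in the Kikuta-Ruckle problem, up to a constant
-/

namespace Pool.Agent.Results.MP_779da1_co.SharpRange

/-- Let `N = ⌊k h⌋`. (1) If `C(n, k) ≤ (1 + 1 / 11) C(N, k)`, or if `n ≤ (1 + 1 / (12 k)) N`, or if
`k ∣ N`, `N ≥ 4 k` and `n ≤ N + 1`, then the `1 / k`-distribution is optimal. (2) If `k ≥ 2`,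
`N ≥ 9 k` and `n ≥ (1 + 1 / k) N`, then the `1 / k`-distribution has fewer lethal `k`-subsets than
the `1`-distribution. -/
theorem result :
    (∀ (k n : ℕ) (h : ℝ), 1 ≤ k → 1 < h →
      (11 * n.choose k ≤ 12 * (⌊h * (k : ℝ)⌋₊).choose k ∨
        12 * k * n ≤ (12 * k + 1) * ⌊h * (k : ℝ)⌋₊ ∨
        k ∣ ⌊h * (k : ℝ)⌋₊ ∧ 4 * k ≤ ⌊h * (k : ℝ)⌋₊ ∧ n ≤ ⌊h * (k : ℝ)⌋₊ + 1) →
      ∀ x : Fin n → ℝ, (∀ i, 0 ≤ x i) → ∑ i, x i = h →
        Set.ncard {V : Finset (Fin n) | V.card = k ∧ (1 : ℝ) ≤ ∑ i ∈ V, x i} ≤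
        Set.ncard {V : Finset (Fin n) | V.card = k ∧ (1 : ℝ) ≤ ∑ i ∈ V,
          (if i.val < min n ⌊h * (k : ℝ)⌋₊ then (1 : ℝ) / (k : ℝ) else 0)}) ∧
    (∀ (k n : ℕ) (h : ℝ), 2 ≤ k → 1 < h → 9 * k ≤ ⌊h * (k : ℝ)⌋₊ →
      (k + 1) * ⌊h * (k : ℝ)⌋₊ ≤ k * n →
        Set.ncard {V : Finset (Fin n) | V.card = k ∧ (1 : ℝ) ≤ ∑ i ∈ V,
          (if i.val < min n ⌊h * (k : ℝ)⌋₊ then (1 : ℝ) / (k : ℝ) else 0)} <
        Set.ncard {V : Finset (Fin n) | V.card = k ∧ (1 : ℝ) ≤ ∑ i ∈ V,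
          (if i.val < min n ⌊h * ((1 : ℕ) : ℝ)⌋₊ then (1 : ℝ) / ((1 : ℕ) : ℝ) else 0)}) := by
  refine ⟨?_, fun k n h hk hh hN hn => AK.beaten k n hk h (by linarith) hN hn⟩
  intro k n h hk hh hn x hx hsum
  rcases hn with hn | hn | ⟨hd, h4, hn⟩
  · exact Pool.Agent.KR5.optimal_lin (by norm_num) Pool.Agent.KR7.key11 k n hk h hn x hx hsum
  · exact Pool.Agent.KR5.optimal_lin (by norm_num) Pool.Agent.KR7.key11 k n hk h
      (Pool.Agent.KR5.choose_range (by norm_num) hk hn) x hx hsum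
  · obtain ⟨s, hs⟩ := hd
    have hk0 : (0 : ℝ) < k := by exact_mod_cast hk
    have hfl : (⌊h * (k : ℝ)⌋₊ : ℝ) ≤ h * k := Nat.floor_le (by positivity)
    have hfl2 := Nat.lt_floor_add_one (h * (k : ℝ))
    rw [hs] at h4 hn hfl hfl2
    push_cast at hfl hfl2
    have hs4 : 4 ≤ s := by
      have h5 : k * 4 ≤ k * s := by rw [mul_comm k 4]; exact h4
      exact Nat.le_of_mul_le_mul_left h5 hk
    refine Pool.Agent.KR4.near_k n k s h hs4 hk ?_ ?_ x hsum (by rw [mul_comm s k]; exact hn)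
    · have h5 : (k : ℝ) * s ≤ k * h := by linarith
      exact le_of_mul_le_mul_left h5 hk0
    · linarith

end Pool.Agent.Results.MP_779da1_co.SharpRange
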