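import Pool.Agent.Helper40.K3S.Small
import Pool.Agent.Helper40.K3S.Red
import Pool.Agent.Helper40.K3S.Dist
import Pool.Agent.Helper46.K3.LargeJ

/-!
The Kikuta-Ruckle poison distribution problem for triples: for every number of elements and every
total dose greater than one, one of the distributions `1 / j`, `j = 1, 2, 3`, is optimal.
-/

set_option autoImplicit false

namespace Pool.Agent.Results.MP_779da1_co.Triples

open Finset

/-- The four types of a total dose. -/
theorem types {h : ℝ} {N m : ℕ} (hN1 : (N : ℝ) ≤ 3 * h) (hN2 : 3 * h < N + 1)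
    (hm1 : (m : ℝ) ≤ 2 * h) (hm2 : 2 * h < m + 1) :
    ∃ tn td : ℕ, (tn, td, m) ∈ K3S.ty N ∧ (td : ℝ) * h < tn := by
  have e1 : 3 * m < 2 * N + 2 := by
    have : (3 : ℝ) * m < 2 * N + 2 := by linarith
    exact_mod_cast this
  have e2 : 2 * N < 3 * m + 3 := by
    have : (2 : ℝ) * N < 3 * m + 3 := by linarith
    exact_mod_cast this
  unfold K3S.ty
  have hdiv := Nat.div_add_mod N 3
  have hmod := Nat.mod_lt N (show 0 < 3 by norm_num)
  by_cases h0 : N % 3 = 0
  · refine ⟨N + 1, 3, ?_, ?_⟩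
    · rw [if_pos h0]
      have : m = 2 * (N / 3) := by omega
      simp [this]
    · push_cast
      exact hN2
  by_cases h2 : N % 3 = 2
  · refine ⟨N / 3 + 1, 1, ?_, ?_⟩
    · rw [if_neg h0, if_pos h2]
      have : m = 2 * (N / 3) + 1 := by omega
      simp [this]
    · have h3 : N + 1 = 3 * (N / 3 + 1) := by omega
      have h4 : (N : ℝ) + 1 = 3 * ((N / 3 + 1 : ℕ) : ℝ) := by exact_mod_cast h3
      push_cast at h4 ⊢
      linarith
  have h1 : N % 3 = 1 := by omega
  have hm : m = 2 * (N / 3) ∨ m = 2 * (N / 3) + 1 := by omega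
  rcases hm with hm | hm
  · refine ⟨2 * (N / 3) + 1, 2, ?_, ?_⟩
    · rw [if_neg h0, if_neg h2]
      simp [hm]
    · rw [← hm]
      push_cast
      exact hm2
  · refine ⟨N + 1, 3, ?_, ?_⟩
    · rw [if_neg h0, if_neg h2]
      simp [hm]
    · push_cast
      exact hN2

/-- For every `n` and every real `h > 1` there is `j` in `{1, 2, 3}` such that the distribution
`1 / j` is optimal for `k = 3`. -/
theorem result (n : ℕ) (h : ℝ) (hh : 1 < h) :
    ∃ j : ℕ, 1 ≤ j ∧ j ≤ 3 ∧ ∀ x : Fin n → ℝ, (∀ i, 0 ≤ x i) → ∑ i, x i = h →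
      Set.ncard {V : Finset (Fin n) | V.card = 3 ∧ (1 : ℝ) ≤ ∑ i ∈ V, x i} ≤
      Set.ncard {V : Finset (Fin n) | V.card = 3 ∧ (1 : ℝ) ≤ ∑ i ∈ V,
            (if i.val < min n ⌊h * (j : ℝ)⌋₊ then (1 : ℝ) / (j : ℝ) else 0)} := by
  rcases le_or_gt 29 h with h29 | h29
  · exact K3.large' n h h29
  set N := ⌊h * ((3 : ℕ) : ℝ)⌋₊ with hNdef
  set m := ⌊h * ((2 : ℕ) : ℝ)⌋₊ with hmdef
  have hN1 : (N : ℝ) ≤ h * ((3 : ℕ) : ℝ) := Nat.floor_le (by push_cast; linarith)
  have hN2 : h * ((3 : ℕ) : ℝ) < N + 1 := Nat.lt_floor_add_one _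
  have hm1 : (m : ℝ) ≤ h * ((2 : ℕ) : ℝ) := Nat.floor_le (by push_cast; linarith)
  have hm2 : h * ((2 : ℕ) : ℝ) < m + 1 := Nat.lt_floor_add_one _
  push_cast at hN1 hN2 hm1 hm2
  have h3 : 3 ≤ N := by
    rw [hNdef]
    apply Nat.le_floor
    push_cast
    linarith
  have h86 : N ≤ 86 := by
    have : (N : ℝ) < 87 := by linarith
    have : N < 87 := by exact_mod_cast this
    omega
  have hs : ⌊h * ((1 : ℕ) : ℝ)⌋₊ = N / 3 := by
    rw [hNdef, ← Nat.floor_div_natCast]
    congr 1
    push_cast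
    ring
  have hmn : m ≤ N := by
    rw [hNdef]
    apply Nat.le_floor
    push_cast
    linarith
  rcases Nat.lt_or_ge N n with hn | hn
  · obtain ⟨tn, td, hty, hlt⟩ := types (N := N) (m := m) (by linarith) (by linarith)
      (by linarith) (by linarith)
    have main : ∀ x : Fin n → ℝ, (∀ i, 0 ≤ x i) → ∑ i, x i = h →
        Set.ncard {V : Finset (Fin n) | V.card = 3 ∧ (1 : ℝ) ≤ ∑ i ∈ V, x i} +
          min (K3S.size n (N / 3) (N / 3 + 1) (N / 3 + 2))
            (min (K3S.size n 0 m (m + 1)) (K3S.size n 0 1 N)) ≤ n.choose 3 := by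
      intro x hx hsum
      obtain ⟨g, g1, g2, g3, g4, g5⟩ := K3S.exists_sorted hn x hx (by rw [hsum]; linarith)
      have hT : (td : ℝ) * ∑ i ∈ range N, g i < tn := by
        rw [hsum] at g4
        have := mul_le_mul_of_nonneg_left g4 (Nat.cast_nonneg (α := ℝ) td)
        linarith
      have := K3S.small h3 h86 hn hty g g1 g2 g3 hT
      omega
    rcases le_total (K3S.size n (N / 3) (N / 3 + 1) (N / 3 + 2))
      (min (K3S.size n 0 m (m + 1)) (K3S.size n 0 1 N)) with hA | hA
    · refine ⟨1, le_rfl, by norm_num, ?_⟩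
      intro x hx hsum
      have hd := K3S.dist1 (n := n) (m := N / 3) (by omega)
      have hx' := main x hx hsum
      rw [min_eq_left hA] at hx'
      rw [hs, min_eq_right (show N / 3 ≤ n by omega)]
      omega
    · rcases le_total (K3S.size n 0 m (m + 1)) (K3S.size n 0 1 N) with hB | hB
      · refine ⟨2, by norm_num, by norm_num, ?_⟩
        intro x hx hsum
        have hd := K3S.dist2 (n := n) (m := m) (by omega)
        have hx' := main x hx hsum
        rw [min_eq_right hA, min_eq_left hB] at hx'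
        rw [← hmdef, min_eq_right (show m ≤ n by omega)]
        omega
      · refine ⟨3, by norm_num, le_rfl, ?_⟩
        intro x hx hsum
        have hd := K3S.dist3 (n := n) (m := N) (by omega)
        have hx' := main x hx hsum
        rw [min_eq_right hA, min_eq_right hB] at hx'
        rw [← hNdef, min_eq_right hn.le]
        omega
  · refine ⟨3, by norm_num, le_rfl, ?_⟩
    intro x hx hsum
    rw [K3.ncard_eq_cnt, K3.ncard_eq_cnt, ← hNdef, min_eq_left hn]
    refine le_trans ?_ (K3.cnt_third le_rfl)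
    have := K3.cnt_le_choose 1 3 x univ
    rwa [card_univ, Fintype.card_fin] at this

end Pool.Agent.Results.MP_779da1_co.Triples
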